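import Mathlib

/-!
# Red-blue `s`-`t` cuts in undirected graphs: the problem
-/

namespace Pool.Agent.R544.RB

/-- An instance `((V, E), (s, t), (r, b))`: the list of the vertices, the list of the edges with
their colours (`true` is red and `false` is blue), the two terminals, and the two bounds. -/
abbrev Inst : Type := (List ℕ × List ((ℕ × ℕ) × Bool)) × (ℕ × ℕ) × (ℕ × ℕ)

/-- `V` lists the vertices and `E` the coloured edges of a finite graph without loops (parallel
edges are allowed). -/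
def IsMultigraph (V : List ℕ) (E : List ((ℕ × ℕ) × Bool)) : Prop :=
  V.Nodup ∧ ∀ e ∈ E, e.1.1 ∈ V ∧ e.1.2 ∈ V ∧ e.1.1 ≠ e.1.2

/-- No two of the edges in the list `E` have the same pair of ends. -/
def NoParallel (E : List ((ℕ × ℕ) × Bool)) : Prop := (E.map (fun e => s(e.1.1, e.1.2))).Nodup

/-- The number of edges of colour `c` in the cut `δ(X)`: exactly one end is in `X`. -/
def cutSize (E : List ((ℕ × ℕ) × Bool)) (X : Finset ℕ) (c : Bool) : ℕ :=
  E.countP (fun e => decide (e.2 = c ∧ ¬ (e.1.1 ∈ X ↔ e.1.2 ∈ X)))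

/-- The red-blue `s`-`t` cut problem in undirected graphs, parallel edges allowed: is there a set
`X` of vertices with `s ∈ X`, `t ∉ X`, such that the cut `δ(X)` contains at most `r` red edges and
at most `b` blue edges? -/
def RedBlueCutMulti (I : Inst) : Prop :=
  IsMultigraph I.1.1 I.1.2 ∧ I.2.1.1 ∈ I.1.1 ∧ I.2.1.2 ∈ I.1.1 ∧ I.2.1.1 ≠ I.2.1.2 ∧
    ∃ X : Finset ℕ, (∀ v ∈ X, v ∈ I.1.1) ∧ I.2.1.1 ∈ X ∧ I.2.1.2 ∉ X ∧
      cutSize I.1.2 X true ≤ I.2.2.1 ∧ cutSize I.1.2 X false ≤ I.2.2.2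

/-- The red-blue `s`-`t` cut problem in simple undirected graphs. -/
def RedBlueCut (I : Inst) : Prop := NoParallel I.1.2 ∧ RedBlueCutMulti I

end Pool.Agent.R544.RB
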