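import Mathlib

/-!
# Red-blue cuts in directed graphs: the problem
-/

namespace Pool.Agent.R544.RBD

/-- An instance `((V, A), (r, b))`: the list of the vertices, the list of the arcs with their
colours (`((u, v), c)` is an arc from `u` to `v`; `c = true` is red and `c = false` is blue), and
the two bounds. -/
abbrev Inst : Type := (List ℕ × List ((ℕ × ℕ) × Bool)) × (ℕ × ℕ)

/-- `V` lists the vertices and `A` the coloured arcs of a finite directed graph without loops
(parallel arcs and pairs of opposite arcs are allowed). -/
def IsMultiDigraph (V : List ℕ) (A : List ((ℕ × ℕ) × Bool)) : Prop :=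
  V.Nodup ∧ ∀ a ∈ A, a.1.1 ∈ V ∧ a.1.2 ∈ V ∧ a.1.1 ≠ a.1.2

/-- No two of the arcs in the list `A` have the same tail and the same head. -/
def NoParallelArcs (A : List ((ℕ × ℕ) × Bool)) : Prop := (A.map Prod.fst).Nodup

/-- The number of arcs of colour `c` leaving `X`: the tail is in `X` and the head is not. -/
def leaving (A : List ((ℕ × ℕ) × Bool)) (X : Finset ℕ) (c : Bool) : ℕ :=
  A.countP (fun a => decide (a.2 = c ∧ a.1.1 ∈ X ∧ a.1.2 ∉ X))

/-- The red-blue cut problem in directed graphs, parallel arcs allowed: is there a nonempty proper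
subset `X` of the set of the vertices such that at most `r` red arcs and at most `b` blue arcs
leave `X`? -/
def DirRedBlueCutMulti (I : Inst) : Prop :=
  IsMultiDigraph I.1.1 I.1.2 ∧
    ∃ X : Finset ℕ, X.Nonempty ∧ X ⊂ I.1.1.toFinset ∧
      leaving I.1.2 X true ≤ I.2.1 ∧ leaving I.1.2 X false ≤ I.2.2

/-- The red-blue cut problem in directed graphs without parallel arcs. -/
def DirRedBlueCut (I : Inst) : Prop := NoParallelArcs I.1.2 ∧ DirRedBlueCutMulti I

end Pool.Agent.R544.RBD
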