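import Pool.Agent.R544.RB.Undir
import Pool.Agent.R544.RB.DirDefs

/-!
# Red-blue cuts in directed graphs
-/

set_option autoImplicit false

namespace Pool.Agent.R544.RBD

open Pool.Agent.NPC Pool.Agent.NPC.H634R2 Pool.Agent.R544.RB

/-- An instance of the clique problem. -/
abbrev CI : Type := (List ℕ × List (ℕ × ℕ)) × ℕ

/-- The number of the copies of `s` and of `t`. -/
def nn (I : CI) : ℕ := 2 * I.1.2.length + 2

/-- The vertices: `5 i` are the copies of `s`, `5 i + 1` the copies of `t`. -/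
def stV (I : CI) : List ℕ :=
  (List.range (nn I)).map (fun i => 5 * i) ++ (List.range (nn I)).map (fun i => 5 * i + 1)

/-- The other vertices: `5 i + 2` are the middle vertices of the short paths from `s` to `t`,
`5 j + 3` is the vertex for the edge number `j`, `5 v + 4` is the vertex for `v`. -/
def otV (I : CI) : List ℕ :=
  (List.range (cc I)).map (fun i => 5 * i + 2) ++
    ((List.range I.1.2.length).map (fun j => 5 * j + 3) ++ I.1.1.map (fun v => 5 * v + 4))

/-- The arcs which force the copies of `s` into `X` and the copies of `t` out of `X`. -/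
def fA (I : CI) : List (ℕ × ℕ) :=
  ((List.range (nn I) ×ˢ List.range (nn I)).filter (fun p => decide (p.1 ≠ p.2))).map
    (fun p => (5 * p.1, 5 * p.2)) ++
  (((List.range (nn I) ×ˢ List.range (nn I)).filter (fun p => decide (p.1 ≠ p.2))).map
    (fun p => (5 * p.1 + 1, 5 * p.2 + 1)) ++
  ((List.range (nn I) ×ˢ List.range (nn I)).map (fun p => (5 * p.1 + 1, 5 * p.2)) ++
  ((List.range (nn I) ×ˢ otV I).map (fun p => (p.2, 5 * p.1)) ++
  (List.range (nn I) ×ˢ otV I).map (fun p => (5 * p.1 + 1, p.2)))))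

/-- The other red arcs. -/
def rA (I : CI) : List (ℕ × ℕ) :=
  (List.range (cc I)).flatMap (fun i => [(0, 5 * i + 2), (5 * i + 2, 1)]) ++
  I.1.2.zipIdx.flatMap (fun p => [(0, 5 * p.2 + 3),
    (5 * p.2 + 3, 5 * p.1.1 + 4), (5 * p.2 + 3, 5 * p.1.2 + 4)])

/-- The blue arcs. -/
def bA (I : CI) : List (ℕ × ℕ) := I.1.1.map (fun v => (5 * v + 4, 1))

/-- The instance. -/
def red (I : CI) : Inst :=
  ((stV I ++ otV I, (fA I ++ rA I).map (fun a => (a, true)) ++ (bA I).map (fun a => (a, false))),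
    (I.1.2.length, kk I))

theorem uPoly_nn : UPoly nn := by
  unfold nn
  exact UPoly.add (UPoly.mul (UPoly.const 2) (UPoly.length (by fun_prop))) (UPoly.const 2)

theorem poly_stV : NPC.Poly stV := by
  unfold stV
  have h1 := uPoly_nn.range
  fun_prop

theorem poly_otV : NPC.Poly otV := by
  unfold otV
  have h1 := uPoly_cc.range
  have h2 : NPC.Poly (fun I : CI => List.range I.1.2.length) :=
    NPC.Poly.range_length (by fun_prop)
  fun_prop

theorem poly_fA : NPC.Poly fA := by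
  unfold fA
  have h1 := uPoly_nn.range
  have h2 := poly_otV
  fun_prop

theorem poly_rA : NPC.Poly rA := by
  unfold rA
  have h1 := uPoly_cc.range
  fun_prop

theorem poly_red : NPC.Poly red := by
  unfold red bA
  have h1 := uPoly_kk.toPoly
  have h2 := poly_stV
  have h3 := poly_otV
  have h4 := poly_fA
  have h5 := poly_rA
  fun_prop

/-! ### The digraph -/

theorem nodup_red {I : CI} (h : IsGraph I.1.1 I.1.2) : (stV I ++ otV I).Nodup := by
  unfold stV otV
  rw [List.nodup_append', List.nodup_append', List.nodup_append', List.nodup_append']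
  refine ⟨⟨List.nodup_range.map (fun a b h => by simpa using h),
    List.nodup_range.map (fun a b h => by simpa using h), ?_⟩,
    ⟨List.nodup_range.map (fun a b h => by simpa using h),
      ⟨List.nodup_range.map (fun a b h => by simpa using h),
      h.1.map (fun a b h => by simpa using h), ?_⟩, ?_⟩, ?_⟩
  · intro x hx hx'
    simp only [List.mem_map] at hx hx'
    obtain ⟨i, _, hi⟩ := hx
    obtain ⟨j, _, hj⟩ := hx'
    omega
  · intro x hx hx'
    simp only [List.mem_map] at hx hx'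
    obtain ⟨i, _, hi⟩ := hx
    obtain ⟨j, _, hj⟩ := hx'
    omega
  · intro x hx hx'
    simp only [List.mem_map, List.mem_append] at hx hx'
    obtain ⟨i, _, hi⟩ := hx
    rcases hx' with ⟨j, _, hj⟩ | ⟨j, _, hj⟩ <;> omega
  · intro x hx hx'
    simp only [List.mem_map, List.mem_append] at hx hx'
    rcases hx with ⟨i, _, hi⟩ | ⟨i, _, hi⟩ <;>
      rcases hx' with ⟨j, _, hj⟩ | ⟨j, _, hj⟩ | ⟨j, _, hj⟩ <;> omega

theorem mem_otV {I : CI} {x : ℕ} : x ∈ otV I ↔ (∃ i < cc I, x = 5 * i + 2) ∨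
    (∃ j < I.1.2.length, x = 5 * j + 3) ∨ ∃ v ∈ I.1.1, x = 5 * v + 4 := by
  unfold otV
  simp only [List.mem_append, List.mem_map, List.mem_range, eq_comm]

theorem mem_fA {I : CI} {a : ℕ × ℕ} : a ∈ fA I ↔
    (∃ i j, i < nn I ∧ j < nn I ∧ i ≠ j ∧ a = (5 * i, 5 * j)) ∨
    (∃ i j, i < nn I ∧ j < nn I ∧ i ≠ j ∧ a = (5 * i + 1, 5 * j + 1)) ∨
    (∃ i j, i < nn I ∧ j < nn I ∧ a = (5 * i + 1, 5 * j)) ∨
    (∃ i x, i < nn I ∧ x ∈ otV I ∧ a = (x, 5 * i)) ∨
    (∃ i x, i < nn I ∧ x ∈ otV I ∧ a = (5 * i + 1, x)) := by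
  unfold fA
  simp only [List.mem_append, List.mem_map, List.mem_filter, List.mem_product, List.mem_range,
    decide_eq_true_eq, Prod.exists]
  constructor
  · rintro (⟨i, j, h, rfl⟩ | ⟨i, j, h, rfl⟩ | ⟨i, j, h, rfl⟩ | ⟨i, j, h, rfl⟩ | ⟨i, j, h, rfl⟩)
    · exact Or.inl ⟨i, j, h.1.1, h.1.2, h.2, rfl⟩
    · exact Or.inr (Or.inl ⟨i, j, h.1.1, h.1.2, h.2, rfl⟩)
    · exact Or.inr (Or.inr (Or.inl ⟨i, j, h.1, h.2, rfl⟩))
    · exact Or.inr (Or.inr (Or.inr (Or.inl ⟨i, j, h.1, h.2, rfl⟩)))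
    · exact Or.inr (Or.inr (Or.inr (Or.inr ⟨i, j, h.1, h.2, rfl⟩)))
  · rintro (⟨i, j, h1, h2, h3, rfl⟩ | ⟨i, j, h1, h2, h3, rfl⟩ | ⟨i, j, h1, h2, rfl⟩ |
      ⟨i, j, h1, h2, rfl⟩ | ⟨i, j, h1, h2, rfl⟩)
    · exact Or.inl ⟨i, j, ⟨⟨h1, h2⟩, h3⟩, rfl⟩
    · exact Or.inr (Or.inl ⟨i, j, ⟨⟨h1, h2⟩, h3⟩, rfl⟩)
    · exact Or.inr (Or.inr (Or.inl ⟨i, j, ⟨h1, h2⟩, rfl⟩))
    · exact Or.inr (Or.inr (Or.inr (Or.inl ⟨i, j, ⟨h1, h2⟩, rfl⟩)))
    · exact Or.inr (Or.inr (Or.inr (Or.inr ⟨i, j, ⟨h1, h2⟩, rfl⟩)))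

theorem mem_rA {I : CI} {a : ℕ × ℕ} : a ∈ rA I ↔
    (∃ i < cc I, a = (0, 5 * i + 2) ∨ a = (5 * i + 2, 1)) ∨
    (∃ p ∈ I.1.2.zipIdx, a = (0, 5 * p.2 + 3) ∨ a = (5 * p.2 + 3, 5 * p.1.1 + 4) ∨
      a = (5 * p.2 + 3, 5 * p.1.2 + 4)) := by
  unfold rA
  simp only [List.mem_append, List.mem_flatMap, List.mem_range, List.mem_cons,
    List.not_mem_nil, or_false]

theorem mem_bA {I : CI} {a : ℕ × ℕ} : a ∈ bA I ↔ ∃ v ∈ I.1.1, a = (5 * v + 4, 1) := by
  unfold bA
  simp only [List.mem_map, eq_comm]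

theorem mem_V {I : CI} {x : ℕ} : x ∈ stV I ++ otV I ↔ (∃ i < nn I, x = 5 * i) ∨
    (∃ i < nn I, x = 5 * i + 1) ∨ x ∈ otV I := by
  unfold stV
  simp only [List.mem_append, List.mem_map, List.mem_range, eq_comm, or_assoc]

theorem nn_pos (I : CI) : 0 < nn I := by unfold nn; omega

theorem mem_A {I : CI} {a : (ℕ × ℕ) × Bool} : a ∈ (red I).1.2 ↔
    (a.1 ∈ fA I ∧ a.2 = true) ∨ (a.1 ∈ rA I ∧ a.2 = true) ∨ (a.1 ∈ bA I ∧ a.2 = false) := by
  obtain ⟨e, c⟩ := a
  simp only [red, List.mem_append, List.mem_map, Prod.mk.injEq]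
  constructor
  · rintro (⟨a, h | h, rfl, rfl⟩ | ⟨a, h, rfl, rfl⟩)
    · exact Or.inl ⟨h, rfl⟩
    · exact Or.inr (Or.inl ⟨h, rfl⟩)
    · exact Or.inr (Or.inr ⟨h, rfl⟩)
  · rintro (⟨h, rfl⟩ | ⟨h, rfl⟩ | ⟨h, rfl⟩)
    · exact Or.inl ⟨e, Or.inl h, rfl, rfl⟩
    · exact Or.inl ⟨e, Or.inr h, rfl, rfl⟩
    · exact Or.inr ⟨e, h, rfl, rfl⟩

theorem isMultiDigraph_red {I : CI} (h : IsGraph I.1.1 I.1.2) :
    IsMultiDigraph (red I).1.1 (red I).1.2 := by
  refine ⟨nodup_red h, ?_⟩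
  intro a ha
  have hV : (red I).1.1 = stV I ++ otV I := rfl
  have hz : 0 ∈ stV I ++ otV I := mem_V.2 (Or.inl ⟨0, nn_pos I, rfl⟩)
  have ho : 1 ∈ stV I ++ otV I := mem_V.2 (Or.inr (Or.inl ⟨0, nn_pos I, rfl⟩))
  have hS : ∀ i < nn I, 5 * i ∈ stV I ++ otV I := fun i hi => mem_V.2 (Or.inl ⟨i, hi, rfl⟩)
  have hT : ∀ i < nn I, 5 * i + 1 ∈ stV I ++ otV I := fun i hi =>
    mem_V.2 (Or.inr (Or.inl ⟨i, hi, rfl⟩))
  have hO : ∀ x ∈ otV I, x ∈ stV I ++ otV I := fun x hx => mem_V.2 (Or.inr (Or.inr hx))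
  have hO5 : ∀ x ∈ otV I, 2 ≤ x % 5 := fun x hx => by
    rcases mem_otV.1 hx with ⟨i, _, rfl⟩ | ⟨i, _, rfl⟩ | ⟨i, _, rfl⟩ <;> omega
  rw [hV]
  rcases mem_A.1 ha with ⟨ha, _⟩ | ⟨ha, _⟩ | ⟨ha, _⟩
  · rcases mem_fA.1 ha with ⟨i, j, h1, h2, h3, h⟩ | ⟨i, j, h1, h2, h3, h⟩ | ⟨i, j, h1, h2, h⟩ |
      ⟨i, j, h1, h2, h⟩ | ⟨i, j, h1, h2, h⟩ <;> rw [h]
    · exact ⟨hS i h1, hS j h2, by simp; omega⟩
    · exact ⟨hT i h1, hT j h2, by simp; omega⟩
    · exact ⟨hT i h1, hS j h2, by simp; omega⟩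
    · exact ⟨hO j h2, hS i h1, by have := hO5 j h2; simp; omega⟩
    · exact ⟨hT i h1, hO j h2, by have := hO5 j h2; simp; omega⟩
  · rcases mem_rA.1 ha with ⟨i, hi, h' | h'⟩ | ⟨p, hp, h' | h' | h'⟩ <;> rw [h']
    · exact ⟨hz, hO _ (mem_otV.2 (Or.inl ⟨i, hi, rfl⟩)), by simp⟩
    · exact ⟨hO _ (mem_otV.2 (Or.inl ⟨i, hi, rfl⟩)), ho, by simp⟩
    · exact ⟨hz, hO _ (mem_otV.2 (Or.inr (Or.inl ⟨p.2, (zipIdx_lt hp).1, rfl⟩))), by simp⟩
    · exact ⟨hO _ (mem_otV.2 (Or.inr (Or.inl ⟨p.2, (zipIdx_lt hp).1, rfl⟩))),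
        hO _ (mem_otV.2 (Or.inr (Or.inr ⟨_, (h.2.1 _ (zipIdx_mem hp)).1, rfl⟩))), by simp; omega⟩
    · exact ⟨hO _ (mem_otV.2 (Or.inr (Or.inl ⟨p.2, (zipIdx_lt hp).1, rfl⟩))),
        hO _ (mem_otV.2 (Or.inr (Or.inr ⟨_, (h.2.1 _ (zipIdx_mem hp)).2.1, rfl⟩))), by simp; omega⟩
  · obtain ⟨v, hv, h'⟩ := mem_bA.1 ha
    rw [h']
    exact ⟨hO _ (mem_otV.2 (Or.inr (Or.inr ⟨v, hv, rfl⟩))), ho, by simp⟩

theorem nodup_product {α β : Type} {l : List α} {l' : List β} (h : l.Nodup) (h' : l'.Nodup) :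
    (l ×ˢ l').Nodup := h.product h'

theorem nodup_otV {I : CI} (h : IsGraph I.1.1 I.1.2) : (otV I).Nodup :=
  (List.nodup_append'.1 (nodup_red h)).2.1

theorem otV_mod {I : CI} {x : ℕ} (hx : x ∈ otV I) : 2 ≤ x % 5 := by
  rcases mem_otV.1 hx with ⟨i, _, rfl⟩ | ⟨i, _, rfl⟩ | ⟨i, _, rfl⟩ <;> omega

theorem nodup_fA {I : CI} (h : IsGraph I.1.1 I.1.2) : (fA I).Nodup := by
  have hr : (List.range (nn I)).Nodup := List.nodup_range
  have ho := nodup_otV h
  unfold fA
  rw [List.nodup_append', List.nodup_append', List.nodup_append', List.nodup_append']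
  refine ⟨((nodup_product hr hr).filter _).map ?_, ⟨((nodup_product hr hr).filter _).map ?_,
    ⟨(nodup_product hr hr).map ?_, ⟨(nodup_product hr ho).map ?_, (nodup_product hr ho).map ?_,
      ?_⟩, ?_⟩, ?_⟩, ?_⟩
  · intro p q hpq
    simp only [Prod.mk.injEq] at hpq
    exact Prod.ext (by omega) (by omega)
  · intro p q hpq
    simp only [Prod.mk.injEq] at hpq
    exact Prod.ext (by omega) (by omega)
  · intro p q hpq
    simp only [Prod.mk.injEq] at hpq
    exact Prod.ext (by omega) (by omega)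
  · intro p q hpq
    simp only [Prod.mk.injEq] at hpq
    exact Prod.ext (by omega) (by omega)
  · intro p q hpq
    simp only [Prod.mk.injEq] at hpq
    exact Prod.ext (by omega) (by omega)
  · intro a ha ha'
    simp only [List.mem_map, List.mem_product, Prod.exists] at ha ha'
    obtain ⟨i, x, h1, rfl⟩ := ha
    obtain ⟨i', x', h2, h3⟩ := ha'
    have := otV_mod h1.2
    simp only [Prod.mk.injEq] at h3
    omega
  · intro a ha ha'
    simp only [List.mem_map, List.mem_product, List.mem_append, Prod.exists] at ha ha'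
    obtain ⟨i, x, h1, rfl⟩ := ha
    rcases ha' with ⟨i', x', h2, h3⟩ | ⟨i', x', h2, h3⟩ <;>
      (have := otV_mod h2.2; simp only [Prod.mk.injEq] at h3; omega)
  · intro a ha ha'
    simp only [List.mem_map, List.mem_product, List.mem_append, List.mem_filter,
      Prod.exists] at ha ha'
    obtain ⟨i, x, h1, rfl⟩ := ha
    rcases ha' with ⟨i', x', h2, h3⟩ | ⟨i', x', h2, h3⟩ | ⟨i', x', h2, h3⟩
    · simp only [Prod.mk.injEq] at h3; omega
    · have := otV_mod h2.2
      simp only [Prod.mk.injEq] at h3; omega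
    · have := otV_mod h2.2
      simp only [Prod.mk.injEq] at h3; omega
  · intro a ha ha'
    simp only [List.mem_map, List.mem_product, List.mem_append, List.mem_filter,
      Prod.exists] at ha ha'
    obtain ⟨i, x, h1, rfl⟩ := ha
    rcases ha' with ⟨i', x', h2, h3⟩ | ⟨i', x', h2, h3⟩ | ⟨i', x', h2, h3⟩ | ⟨i', x', h2, h3⟩
    · simp only [Prod.mk.injEq] at h3; omega
    · simp only [Prod.mk.injEq] at h3; omega
    · have := otV_mod h2.2
      simp only [Prod.mk.injEq] at h3; omega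
    · have := otV_mod h2.2
      simp only [Prod.mk.injEq] at h3; omega

theorem nodup_rA {I : CI} (h : IsGraph I.1.1 I.1.2) : (rA I).Nodup := by
  unfold rA
  rw [List.nodup_append']
  refine ⟨?_, ?_, ?_⟩
  · rw [List.nodup_flatMap]
    refine ⟨fun i _ => by simp, ?_⟩
    refine List.Nodup.pairwise_of_forall_ne List.nodup_range ?_
    intro i _ j _ hij x hx hx'
    simp only [List.mem_cons, List.not_mem_nil, or_false] at hx hx'
    rcases hx with rfl | rfl <;> rcases hx' with hx' | hx' <;> simp at hx' <;> omega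
  · rw [List.nodup_flatMap]
    refine ⟨fun p hp => ?_, ?_⟩
    · have := (h.2.1 _ (zipIdx_mem hp)).2.2
      simp [this]
    · have h1 := zipIdx_snd_nodup I.1.2
      rw [List.nodup_iff_pairwise_ne, List.pairwise_map] at h1
      refine h1.imp ?_
      intro p q hpq x hx hx'
      simp only [List.mem_cons, List.not_mem_nil, or_false] at hx hx'
      rcases hx with rfl | rfl | rfl <;> rcases hx' with hx' | hx' | hx' <;>
        simp only [Prod.mk.injEq] at hx' <;> omega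
  · intro x hx hx'
    simp only [List.mem_flatMap, List.mem_cons, List.not_mem_nil, or_false] at hx hx'
    obtain ⟨i, _, rfl | rfl⟩ := hx <;> obtain ⟨p, _, hx' | hx' | hx'⟩ := hx' <;>
      simp only [Prod.mk.injEq] at hx' <;> omega

theorem noParallel_red {I : CI} (h : IsGraph I.1.1 I.1.2) : NoParallelArcs (red I).1.2 := by
  unfold NoParallelArcs red
  simp only [List.map_append, List.map_map]
  have e1 : (Prod.fst ∘ fun a : ℕ × ℕ => (a, true)) = id := rfl
  have e2 : (Prod.fst ∘ fun a : ℕ × ℕ => (a, false)) = id := rfl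
  rw [e1, e2, List.map_id, List.map_id, List.map_id, List.nodup_append', List.nodup_append']
  refine ⟨⟨nodup_fA h, nodup_rA h, ?_⟩, ?_, ?_⟩
  · intro a ha ha'
    rcases mem_fA.1 ha with ⟨i, j, h1, h2, h3, rfl⟩ | ⟨i, j, h1, h2, h3, rfl⟩ |
      ⟨i, j, h1, h2, rfl⟩ | ⟨i, j, h1, h2, rfl⟩ | ⟨i, j, h1, h2, rfl⟩ <;>
    rcases mem_rA.1 ha' with ⟨k, _, h' | h'⟩ | ⟨p, _, h' | h' | h'⟩ <;>
      simp only [Prod.mk.injEq] at h' <;> first | omega | (have := otV_mod h2; omega)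
  · unfold bA
    exact h.1.map (fun a b h => by simpa using h)
  · intro a ha ha'
    obtain ⟨v, _, rfl⟩ := mem_bA.1 ha'
    rcases List.mem_append.1 ha with ha | ha
    · rcases mem_fA.1 ha with ⟨i, j, h1, h2, h3, h'⟩ | ⟨i, j, h1, h2, h3, h'⟩ |
        ⟨i, j, h1, h2, h'⟩ | ⟨i, j, h1, h2, h'⟩ | ⟨i, j, h1, h2, h'⟩ <;>
      simp only [Prod.mk.injEq] at h' <;> omega
    · rcases mem_rA.1 ha with ⟨k, _, h' | h'⟩ | ⟨p, _, h' | h' | h'⟩ <;>
      simp only [Prod.mk.injEq] at h' <;> omega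

/-! ### Counting -/

theorem length_le_countP {α : Type} {l l' : List α} {p : α → Bool} (h : l'.Nodup)
    (h' : ∀ a ∈ l', a ∈ l ∧ p a = true) : l'.length ≤ l.countP p := by
  rw [List.countP_eq_length_filter]
  exact (h.subperm fun a ha => List.mem_filter.2 (h' a ha)).length_le

theorem red_count {I : CI} {X : Finset ℕ} {l : List (ℕ × ℕ)} (hl : l.Nodup)
    (h : ∀ a ∈ l, a ∈ fA I ∧ a.1 ∈ X ∧ a.2 ∉ X) : l.length ≤ leaving (red I).1.2 X true := by
  have h1 : (l.map (fun a => (a, true))).length ≤ leaving (red I).1.2 X true := by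
    refine length_le_countP (hl.map (fun a b h => by simpa using h)) ?_
    intro a ha
    simp only [List.mem_map] at ha
    obtain ⟨b, hb, rfl⟩ := ha
    obtain ⟨h2, h3, h4⟩ := h b hb
    exact ⟨mem_A.2 (Or.inl ⟨h2, rfl⟩), by simp [h3, h4]⟩
  simpa using h1

theorem count_split (n : ℕ) (p : ℕ → Prop) [DecidablePred p] :
    n = ((List.range n).filter (fun i => decide (p i))).length +
      ((List.range n).filter (fun i => decide (¬ p i))).length := by
  have := List.length_eq_length_filter_add (l := List.range n) (fun i => decide (p i))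
  simpa using this

/-- If few red arcs leave `X` then `X` contains all copies of `s`. -/
theorem force_s {I : CI} {X : Finset ℕ} (hX : X.Nonempty) (hV : ∀ x ∈ X, x ∈ stV I ++ otV I)
    (hr : leaving (red I).1.2 X true ≤ I.1.2.length) : ∀ i < nn I, 5 * i ∈ X := by
  by_contra hne
  push Not at hne
  obtain ⟨j, hj, hj'⟩ := hne
  have hnd : (List.range (nn I)).Nodup := List.nodup_range
  have h1 := count_split (nn I) (fun i => 5 * i ∈ X)
  have h2 : ((List.range (nn I)).filter (fun i => decide (5 * i ∈ X))).length ≤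
      leaving (red I).1.2 X true := by
    have := red_count (I := I) (X := X)
      (l := ((List.range (nn I)).filter (fun i => decide (5 * i ∈ X))).map
        (fun i => (5 * i, 5 * j))) ((hnd.filter _).map (fun a b h => by simpa using h)) ?_
    · simpa using this
    · intro a ha
      simp only [List.mem_map, List.mem_filter, List.mem_range, decide_eq_true_eq] at ha
      obtain ⟨i, ⟨hi, hi'⟩, rfl⟩ := ha
      refine ⟨mem_fA.2 (Or.inl ⟨i, j, hi, hj, ?_, rfl⟩), hi', hj'⟩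
      rintro rfl
      exact hj' hi'
  have h3 : ((List.range (nn I)).filter (fun i => decide (¬ 5 * i ∈ X))).length ≤
      leaving (red I).1.2 X true := by
    obtain ⟨x, hx⟩ := hX
    have := red_count (I := I) (X := X)
      (l := ((List.range (nn I)).filter (fun i => decide (¬ 5 * i ∈ X))).map
        (fun i => (x, 5 * i))) ((hnd.filter _).map (fun a b h => by simpa using h)) ?_
    · simpa using this
    · intro a ha
      simp only [List.mem_map, List.mem_filter, List.mem_range, decide_eq_true_eq] at ha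
      obtain ⟨i, ⟨hi, hi'⟩, rfl⟩ := ha
      refine ⟨mem_fA.2 ?_, hx, hi'⟩
      rcases mem_V.1 (hV x hx) with ⟨k, hk, rfl⟩ | ⟨k, hk, rfl⟩ | ho
      · refine Or.inl ⟨k, i, hk, hi, ?_, rfl⟩
        rintro rfl
        exact hi' hx
      · exact Or.inr (Or.inr (Or.inl ⟨k, i, hk, hi, rfl⟩))
      · exact Or.inr (Or.inr (Or.inr (Or.inl ⟨i, x, hi, ho, rfl⟩)))
  unfold nn at *
  omega

/-- If few red arcs leave `X` then `X` contains no copy of `t`. -/
theorem force_t {I : CI} {X : Finset ℕ} (hX : ∃ y ∈ stV I ++ otV I, y ∉ X)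
    (hr : leaving (red I).1.2 X true ≤ I.1.2.length) : ∀ i < nn I, 5 * i + 1 ∉ X := by
  by_contra hne
  push Not at hne
  obtain ⟨j, hj, hj'⟩ := hne
  have hnd : (List.range (nn I)).Nodup := List.nodup_range
  have h1 := count_split (nn I) (fun i => 5 * i + 1 ∈ X)
  have h2 : ((List.range (nn I)).filter (fun i => decide (¬ 5 * i + 1 ∈ X))).length ≤
      leaving (red I).1.2 X true := by
    have := red_count (I := I) (X := X)
      (l := ((List.range (nn I)).filter (fun i => decide (¬ 5 * i + 1 ∈ X))).map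
        (fun i => (5 * j + 1, 5 * i + 1))) ((hnd.filter _).map (fun a b h => by simpa using h)) ?_
    · simpa using this
    · intro a ha
      simp only [List.mem_map, List.mem_filter, List.mem_range, decide_eq_true_eq] at ha
      obtain ⟨i, ⟨hi, hi'⟩, rfl⟩ := ha
      refine ⟨mem_fA.2 (Or.inr (Or.inl ⟨j, i, hj, hi, ?_, rfl⟩)), hj', hi'⟩
      rintro rfl
      exact hi' hj'
  have h3 : ((List.range (nn I)).filter (fun i => decide (5 * i + 1 ∈ X))).length ≤
      leaving (red I).1.2 X true := by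
    obtain ⟨y, hy, hyX⟩ := hX
    have := red_count (I := I) (X := X)
      (l := ((List.range (nn I)).filter (fun i => decide (5 * i + 1 ∈ X))).map
        (fun i => (5 * i + 1, y))) ((hnd.filter _).map (fun a b h => by simpa using h)) ?_
    · simpa using this
    · intro a ha
      simp only [List.mem_map, List.mem_filter, List.mem_range, decide_eq_true_eq] at ha
      obtain ⟨i, ⟨hi, hi'⟩, rfl⟩ := ha
      refine ⟨mem_fA.2 ?_, hi', hyX⟩
      rcases mem_V.1 hy with ⟨k, hk, rfl⟩ | ⟨k, hk, rfl⟩ | ho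
      · exact Or.inr (Or.inr (Or.inl ⟨i, k, hi, hk, rfl⟩))
      · refine Or.inr (Or.inl ⟨i, k, hi, hk, ?_, rfl⟩)
        rintro rfl
        exact hyX hi'
      · exact Or.inr (Or.inr (Or.inr (Or.inr ⟨i, y, hi, ho, rfl⟩)))
  unfold nn at *
  omega

/-- The number of the red arcs leaving `X`, among those which force nothing. -/
theorem cut_rA (I : CI) (X : Finset ℕ) (h0 : 0 ∈ X) (h1 : 1 ∉ X) :
    (rA I).countP (fun a => decide (a.1 ∈ X ∧ a.2 ∉ X)) = cc I + (I.1.2.zipIdx.map (fun p =>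
      (if 5 * p.2 + 3 ∈ X then (if 5 * p.1.1 + 4 ∈ X then 0 else 1) +
        (if 5 * p.1.2 + 4 ∈ X then 0 else 1) else 1))).sum := by
  unfold rA
  rw [List.countP_append, List.countP_flatMap, List.countP_flatMap]
  congr 1
  · have : ∀ i, (List.countP (fun a : ℕ × ℕ => decide (a.1 ∈ X ∧ a.2 ∉ X)) ∘
      fun i => [(0, 5 * i + 2), (5 * i + 2, 1)]) i = 1 := by
      intro i
      by_cases h : 5 * i + 2 ∈ X <;> simp [h, h0, h1]
    rw [List.map_congr_left (fun i _ => this i)]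
    simp
  · congr 1
    apply List.map_congr_left
    intro p _
    by_cases a : 5 * p.2 + 3 ∈ X <;> by_cases b : 5 * p.1.1 + 4 ∈ X <;>
      by_cases c : 5 * p.1.2 + 4 ∈ X <;> simp [a, b, c, h0]

theorem leaving_red (I : CI) (X : Finset ℕ) : leaving (red I).1.2 X true =
    (fA I).countP (fun a => decide (a.1 ∈ X ∧ a.2 ∉ X)) +
      (rA I).countP (fun a => decide (a.1 ∈ X ∧ a.2 ∉ X)) := by
  unfold leaving red
  simp only [List.countP_append, List.countP_map, List.map_append]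
  have e : List.countP ((fun a : (ℕ × ℕ) × Bool => decide (a.2 = true ∧ a.1.1 ∈ X ∧ a.1.2 ∉ X)) ∘
      fun a => (a, false)) (bA I) = 0 := by
    rw [List.countP_eq_zero]
    intro a _
    simp
  rw [e, Nat.add_zero]
  congr 1 <;>
  · apply List.countP_congr
    intro a _
    simp

theorem leaving_blue (I : CI) (X : Finset ℕ) (h1 : 1 ∉ X) : leaving (red I).1.2 X false =
    I.1.1.countP (fun v => decide (5 * v + 4 ∈ X)) := by
  unfold leaving red bA
  simp only [List.countP_append, List.countP_map, List.map_append]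
  have e : ∀ l : List (ℕ × ℕ), List.countP ((fun a : (ℕ × ℕ) × Bool =>
      decide (a.2 = false ∧ a.1.1 ∈ X ∧ a.1.2 ∉ X)) ∘ fun a => (a, true)) l = 0 := by
    intro l
    rw [List.countP_eq_zero]
    intro a _
    simp
  rw [e, e]
  simp only [Nat.zero_add]
  apply List.countP_congr
  intro v _
  simp [h1]

theorem red_correct {I : CI} (h : IsGraph I.1.1 I.1.2) (h2 : 2 ≤ I.2) :
    HasClique I.1.1 I.1.2 I.2 ↔ DirRedBlueCutMulti (red I) := by
  classical
  rw [hasClique_kk, hasClique_iff h (two_le_kk h2), ← cc_eq]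
  constructor
  · rintro ⟨U, hUV, hUk, hU⟩
    refine ⟨isMultiDigraph_red h, ?_⟩
    let X : Finset ℕ := (stV I ++ otV I).toFinset.filter (fun x => x % 5 = 0 ∨
      (x % 5 = 4 ∧ x / 5 ∈ U) ∨ (x % 5 = 3 ∧ ∀ e ∈ I.1.2[x / 5]?, e.1 ∈ U ∧ e.2 ∈ U))
    have hX : ∀ x, x ∈ X ↔ x ∈ stV I ++ otV I ∧ (x % 5 = 0 ∨
      (x % 5 = 4 ∧ x / 5 ∈ U) ∨ (x % 5 = 3 ∧ ∀ e ∈ I.1.2[x / 5]?, e.1 ∈ U ∧ e.2 ∈ U)) := by
      intro x; simp [X]
    have hX4 : ∀ v ∈ I.1.1, (5 * v + 4 ∈ X ↔ v ∈ U) := by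
      intro v hv
      rw [hX, mem_V, mem_otV]
      have e1 : (5 * v + 4) % 5 = 4 := by omega
      have e2 : (5 * v + 4) / 5 = v := by omega
      rw [e1, e2]
      constructor
      · rintro ⟨_, h | h | h⟩
        · omega
        · exact h.2
        · omega
      · intro hv'
        exact ⟨Or.inr (Or.inr (Or.inr (Or.inr ⟨v, hv, rfl⟩))), Or.inr (Or.inl ⟨rfl, hv'⟩)⟩
    have hX3 : ∀ p ∈ I.1.2.zipIdx, (5 * p.2 + 3 ∈ X ↔ p.1.1 ∈ U ∧ p.1.2 ∈ U) := by
      intro p hp
      obtain ⟨q1, q2⟩ := zipIdx_lt hp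
      rw [hX, mem_V, mem_otV]
      have e1 : (5 * p.2 + 3) % 5 = 3 := by omega
      have e2 : (5 * p.2 + 3) / 5 = p.2 := by omega
      rw [e1, e2]
      have e3 : I.1.2[p.2]? = some p.1 := by rw [List.getElem?_eq_getElem q1, q2]
      rw [e3]
      constructor
      · rintro ⟨_, h | h | h⟩
        · omega
        · omega
        · exact h.2 _ rfl
      · intro h'
        refine ⟨Or.inr (Or.inr (Or.inr (Or.inl ⟨p.2, q1, rfl⟩))), Or.inr (Or.inr ⟨rfl, ?_⟩)⟩
        rintro e he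
        simp only [Option.mem_def, Option.some.injEq] at he
        rw [← he]
        exact h'
    have hS : ∀ i < nn I, 5 * i ∈ X := fun i hi => (hX _).2 ⟨mem_V.2 (Or.inl ⟨i, hi, rfl⟩),
      Or.inl (by omega)⟩
    have hT : ∀ i, 5 * i + 1 ∉ X := by
      intro i hi
      rcases ((hX _).1 hi).2 with h | h | h <;> omega
    have h0 : 0 ∈ X := hS 0 (nn_pos I)
    have h1 : 1 ∉ X := hT 0
    refine ⟨X, ⟨0, h0⟩, ?_, ?_, ?_⟩
    · refine Finset.ssubset_iff_subset_ne.2 ⟨fun x hx => List.mem_toFinset.2 ((hX x).1 hx).1,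
        fun he => h1 ?_⟩
      rw [he, List.mem_toFinset]
      exact mem_V.2 (Or.inr (Or.inl ⟨0, nn_pos I, rfl⟩))
    · change leaving (red I).1.2 X true ≤ I.1.2.length
      rw [leaving_red, cut_rA I X h0 h1]
      have e : (fA I).countP (fun a => decide (a.1 ∈ X ∧ a.2 ∉ X)) = 0 := by
        rw [List.countP_eq_zero]
        intro a ha
        simp only [decide_eq_true_eq, not_and, not_not]
        intro ha'
        rcases mem_fA.1 ha with ⟨i, j, h1, h2, h3, rfl⟩ | ⟨i, j, h1, h2, h3, rfl⟩ |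
          ⟨i, j, h1, h2, rfl⟩ | ⟨i, j, h1, h2, rfl⟩ | ⟨i, j, h1, h2, rfl⟩
        · exact hS j h2
        · exact absurd ha' (hT i)
        · exact hS j h2
        · exact hS i h1
        · exact absurd ha' (hT i)
      rw [e, Nat.zero_add]
      have := sum_le (E := I.1.2) (U := U) (n := 0) (g := fun p =>
        (if 5 * p.2 + 3 ∈ X then (if 5 * p.1.1 + 4 ∈ X then 0 else 1) +
          (if 5 * p.1.2 + 4 ∈ X then 0 else 1) else 1)) ?_
      · omega
      · intro p hp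
        have g1 := hX3 p hp
        have hm := h.2.1 _ (zipIdx_mem hp)
        have g2 := hX4 _ hm.1
        have g3 := hX4 _ hm.2.1
        simp only [g1, g2, g3]
        by_cases a : p.1.1 ∈ U <;> by_cases b : p.1.2 ∈ U <;> simp [a, b]
    · change leaving (red I).1.2 X false ≤ kk I
      rw [leaving_blue I X h1, ← card_eq_countP h.1 X (fun v => 5 * v + 4)]
      refine (Finset.card_le_card fun v hv => ?_).trans hUk
      simp only [Finset.mem_filter, List.mem_toFinset] at hv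
      exact (hX4 v hv.1).1 hv.2
  · rintro ⟨_, X, hXne, hXV, hr, hb⟩
    have hr' : leaving (red I).1.2 X true ≤ I.1.2.length := hr
    have hb' : leaving (red I).1.2 X false ≤ kk I := hb
    have hV : ∀ x ∈ X, x ∈ stV I ++ otV I := fun x hx => by
      have := hXV.1 hx
      rwa [List.mem_toFinset] at this
    have hS := force_s hXne hV hr'
    have hT := force_t (I := I) (X := X) (by
      obtain ⟨y, hy, hy'⟩ := Finset.exists_of_ssubset hXV
      exact ⟨y, by rwa [List.mem_toFinset] at hy, hy'⟩) hr'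
    have h0 : 0 ∈ X := hS 0 (nn_pos I)
    have h1 : 1 ∉ X := hT 0 (nn_pos I)
    refine ⟨I.1.1.toFinset.filter (fun v => 5 * v + 4 ∈ X), ?_, ?_, ?_⟩
    · intro v hv
      simp only [Finset.mem_filter, List.mem_toFinset] at hv
      exact hv.1
    · rw [card_eq_countP h.1 X (fun v => 5 * v + 4), ← leaving_blue I X h1]
      exact hb'
    · rw [leaving_red, cut_rA I X h0 h1] at hr'
      have := sum_ge (E := I.1.2) (U := I.1.1.toFinset.filter (fun v => 5 * v + 4 ∈ X)) (n := 0)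
        (g := fun p => (if 5 * p.2 + 3 ∈ X then (if 5 * p.1.1 + 4 ∈ X then 0 else 1) +
          (if 5 * p.1.2 + 4 ∈ X then 0 else 1) else 1)) ?_
      · omega
      · intro p hp
        have hm := h.2.1 _ (zipIdx_mem hp)
        simp only [Finset.mem_filter, List.mem_toFinset, hm.1, hm.2.1, true_and]
        split_ifs <;> simp_all

theorem hardPr_RBD : HardPr (fun I : Inst => NoParallelArcs I.1.2) DirRedBlueCutMulti := by
  refine hardPr_CLIQUE.trans poly_red (fun I h => noParallel_red h.1) fun I h => ?_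
  rw [← red_correct h.1 h.2]
  exact ⟨fun h => h.2, fun h' => ⟨h.1, h'⟩⟩

theorem hardI_RBD : HardI DirRedBlueCut := by
  have h : HardPr (fun I : Inst => NoParallelArcs I.1.2) DirRedBlueCut := by
    refine hardPr_RBD.trans (f := fun I => I) NPC.Poly.id (fun I h => h) fun I h => ?_
    exact ⟨fun h' => ⟨h, h'⟩, fun h' => h'.2⟩
  exact h.toHardI

/-! ### Membership in NP -/

theorem pp_noParallel : PP (fun I : Inst => NoParallelArcs I.1.2) := by
  unfold NoParallelArcs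
  exact pp_nodup (by fun_prop)

theorem pp_isMultiDigraph : PP (fun I : Inst => IsMultiDigraph I.1.1 I.1.2) := by
  unfold IsMultiDigraph
  refine PP.and (pp_nodup (by fun_prop)) ?_
  refine PP.ball (l := fun I : Inst => I.1.2)
    (r := fun I e => e.1.1 ∈ I.1.1 ∧ e.1.2 ∈ I.1.1 ∧ e.1.1 ≠ e.1.2) (by fun_prop) ?_
  exact PP.and (PP.mem (by fun_prop) (by fun_prop)) (PP.and (PP.mem (by fun_prop) (by fun_prop))
    (PP.ne (by fun_prop) (by fun_prop)))

/-- The test of a certificate, a list of vertices. -/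
def Ver (I : Inst) (w : List ℕ) : Prop :=
  IsMultiDigraph I.1.1 I.1.2 ∧ (∃ v ∈ w, v ∈ I.1.1) ∧ (∀ v ∈ w, v ∈ I.1.1) ∧
    (∃ v ∈ I.1.1, v ∉ w) ∧
      I.1.2.countP (fun a => decide (a.2 = true ∧ a.1.1 ∈ w ∧ a.1.2 ∉ w)) ≤ I.2.1 ∧
      I.1.2.countP (fun a => decide (a.2 = false ∧ a.1.1 ∈ w ∧ a.1.2 ∉ w)) ≤ I.2.2

theorem pp_ver : PP (fun x : Inst × List ℕ => Ver x.1 x.2) := by
  unfold Ver
  have hc : ∀ c : Bool, NPC.Poly (fun x : Inst × List ℕ =>
      x.1.1.2.countP (fun a => decide (a.2 = c ∧ a.1.1 ∈ x.2 ∧ a.1.2 ∉ x.2))) := by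
    intro c
    refine countP_poly (l := fun x : Inst × List ℕ => x.1.1.2)
      (p := fun x a => decide (a.2 = c ∧ a.1.1 ∈ x.2 ∧ a.1.2 ∉ x.2)) (by fun_prop) ?_
    exact PP.dec (PP.and (PP.eq (by fun_prop) (by fun_prop)) (PP.and
      (PP.mem (by fun_prop) (by fun_prop)) (PP.not (PP.mem (by fun_prop) (by fun_prop)))))
  refine PP.and (pp_isMultiDigraph.comp (by fun_prop)) (PP.and ?_ (PP.and ?_ (PP.and ?_
    (PP.and (PP.le (hc true) (by fun_prop)) (PP.le (hc false) (by fun_prop))))))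
  · exact PP.bex (l := fun x : Inst × List ℕ => x.2) (r := fun x v => v ∈ x.1.1.1) (by fun_prop)
      (PP.mem (by fun_prop) (by fun_prop))
  · exact PP.ball (l := fun x : Inst × List ℕ => x.2) (r := fun x v => v ∈ x.1.1.1) (by fun_prop)
      (PP.mem (by fun_prop) (by fun_prop))
  · exact PP.bex (l := fun x : Inst × List ℕ => x.1.1.1) (r := fun x v => v ∉ x.2) (by fun_prop)
      (PP.not (PP.mem (by fun_prop) (by fun_prop)))

theorem ver_of {I : Inst} (h : DirRedBlueCutMulti I) :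
    ∃ w : List ℕ, sz w ≤ (Polynomial.X : Polynomial ℕ).eval (sz I) ∧ Ver I w := by
  obtain ⟨h1, X, h5, h6, h8, h9⟩ := h
  have hXV : ∀ v ∈ X, v ∈ I.1.1 := fun v hv => by
    have := h6.1 hv
    rwa [List.mem_toFinset] at this
  have hm : ∀ v, v ∈ I.1.1.filter (fun v => decide (v ∈ X)) ↔ v ∈ X := by
    intro v
    simp only [List.mem_filter, decide_eq_true_eq, and_iff_right_iff_imp]
    exact hXV v
  refine ⟨I.1.1.filter (fun v => decide (v ∈ X)), ?_, h1, ?_, ?_, ?_, ?_, ?_⟩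
  · have := sz_sublist (List.filter_sublist (p := fun v => decide (v ∈ X)) (l := I.1.1))
    simp only [Polynomial.eval_X]
    obtain ⟨⟨V, E⟩, y⟩ := I
    simp only [sz_pair] at this ⊢
    omega
  · obtain ⟨v, hv⟩ := h5
    exact ⟨v, (hm v).2 hv, hXV v hv⟩
  · intro v hv
    exact (List.mem_filter.1 hv).1
  · obtain ⟨y, hy, hy'⟩ := Finset.exists_of_ssubset h6
    exact ⟨y, by rwa [List.mem_toFinset] at hy, fun h => hy' ((hm y).1 h)⟩
  · simp only [hm]; exact h8
  · simp only [hm]; exact h9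

theorem of_ver {I : Inst} {w : List ℕ} (h : Ver I w) : DirRedBlueCutMulti I := by
  obtain ⟨h1, ⟨v, hv, _⟩, h4, ⟨y, hy, hy'⟩, h8, h9⟩ := h
  refine ⟨h1, w.toFinset, ⟨v, by simpa using hv⟩, ?_, ?_, ?_⟩
  · refine Finset.ssubset_iff_subset_ne.2 ⟨?_, fun he => hy' ?_⟩
    · intro v hv
      rw [List.mem_toFinset] at hv ⊢
      exact h4 v hv
    · rw [← List.mem_toFinset, he, List.mem_toFinset]
      exact hy
  · unfold leaving; simpa using h8
  · unfold leaving; simpa using h9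

theorem inNPP_multi : InNPP DirRedBlueCutMulti :=
  inNPP_of_pp pp_ver Polynomial.X (fun _ h => ver_of h) fun _ _ h => of_ver h

theorem inNPP_simple : InNPP DirRedBlueCut := by
  refine inNPP_of_pp (R := fun I w => NoParallelArcs I.1.2 ∧ Ver I w)
    (PP.and (pp_noParallel.comp (by fun_prop)) pp_ver) Polynomial.X (fun I h => ?_)
    fun _ _ h => ⟨h.1, of_ver h.2⟩
  obtain ⟨w, hw, hw'⟩ := ver_of h.2
  exact ⟨w, hw, h.1, hw'⟩

end Pool.Agent.R544.RBD
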