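import Pool.Agent.H634R2.Clique
import Pool.Agent.R544.Util
import Pool.Agent.R544.RB.Defs

/-!
# Red-blue `s`-`t` cuts in undirected graphs
-/

set_option autoImplicit false

namespace Pool.Agent.R544.RB

open Pool.Agent.NPC Pool.Agent.NPC.H634R2

/-! ### The reduction from the clique problem -/

/-- The parameter, capped. -/
def kk (I : (List ℕ × List (ℕ × ℕ)) × ℕ) : ℕ := min I.2 (I.1.1.length + 2)

/-- The number of edges of a clique. -/
def cc (I : (List ℕ × List (ℕ × ℕ)) × ℕ) : ℕ := kk I * (kk I - 1) / 2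

theorem cc_eq (I : (List ℕ × List (ℕ × ℕ)) × ℕ) : cc I = (kk I).choose 2 :=
  (Nat.choose_two_right _).symm

/-- The vertices: `0` is `s`, `1` is `t`, `4 i + 4` are the middle vertices of the red paths from
`s` to `t`, `4 j + 2` is the vertex for the edge number `j`, `4 v + 3` is the vertex for `v`. -/
def redV (I : (List ℕ × List (ℕ × ℕ)) × ℕ) : List ℕ :=
  ([0, 1] ++ (List.range (cc I)).map (fun i => 4 * i + 4)) ++
    ((List.range I.1.2.length).map (fun j => 4 * j + 2) ++ I.1.1.map (fun v => 4 * v + 3))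

/-- The edges. -/
def redE (I : (List ℕ × List (ℕ × ℕ)) × ℕ) : List ((ℕ × ℕ) × Bool) :=
  (List.range (cc I)).flatMap (fun i => [((0, 4 * i + 4), true), ((4 * i + 4, 1), true)]) ++
  (I.1.2.zipIdx.flatMap (fun p => [((0, 4 * p.2 + 2), true),
    ((4 * p.2 + 2, 4 * p.1.1 + 3), true), ((4 * p.2 + 2, 4 * p.1.2 + 3), true)]) ++
  I.1.1.map (fun v => ((4 * v + 3, 1), false)))

/-- The instance. -/
def red (I : (List ℕ × List (ℕ × ℕ)) × ℕ) : Inst :=
  ((redV I, redE I), (0, 1), (I.1.2.length, kk I))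

theorem uPoly_kk : UPoly kk := by
  unfold kk
  exact uPoly_min (by fun_prop) (UPoly.add (UPoly.length (by fun_prop)) (UPoly.const 2))

theorem uPoly_cc : UPoly cc := by
  have h := uPoly_kk
  refine UPoly.of_le ?_ (UPoly.mul h h) (fun I => ?_)
  · unfold cc
    have h' := h.toPoly
    fun_prop
  · unfold cc
    refine (Nat.div_le_self _ _).trans ?_
    exact Nat.mul_le_mul_left _ (Nat.sub_le _ _)

theorem poly_redV : NPC.Poly redV := by
  unfold redV
  have h1 := uPoly_cc.range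
  have h2 : NPC.Poly (fun I : (List ℕ × List (ℕ × ℕ)) × ℕ => List.range I.1.2.length) :=
    NPC.Poly.range_length (by fun_prop)
  fun_prop

theorem poly_redE : NPC.Poly redE := by
  unfold redE
  have h1 := uPoly_cc.range
  fun_prop

theorem poly_red : NPC.Poly red := by
  unfold red
  have h1 := uPoly_kk.toPoly
  have h2 := poly_redV
  have h3 := poly_redE
  fun_prop

theorem nodup_redV {I : (List ℕ × List (ℕ × ℕ)) × ℕ} (h : IsGraph I.1.1 I.1.2) :
    (redV I).Nodup := by
  unfold redV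
  rw [List.nodup_append', List.nodup_append', List.nodup_append']
  refine ⟨⟨by simp, List.nodup_range.map (fun a b h => by simpa using h), ?_⟩,
    ⟨List.nodup_range.map (fun a b h => by simpa using h),
      h.1.map (fun a b h => by simpa using h), ?_⟩, ?_⟩
  · intro x hx hx'
    simp only [List.mem_map, List.mem_cons, List.not_mem_nil, or_false] at hx hx'
    obtain ⟨i, _, rfl⟩ := hx'
    omega
  · intro x hx hx'
    simp only [List.mem_map] at hx hx'
    obtain ⟨i, _, rfl⟩ := hx'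
    obtain ⟨j, _, hj⟩ := hx
    omega
  · intro x hx hx'
    simp only [List.mem_map, List.mem_append, List.mem_cons, List.not_mem_nil, or_false] at hx hx'
    rcases hx with hx | ⟨i, _, hx⟩ <;> rcases hx' with ⟨j, _, hx'⟩ | ⟨j, _, hx'⟩ <;> omega

/-- All edges of the constructed graph go upwards with respect to this rank. -/
def rank (x : ℕ) : ℕ := if x = 0 then 0 else if x = 1 then 3 else if x % 4 = 3 then 2 else 1

theorem mem_redE {I : (List ℕ × List (ℕ × ℕ)) × ℕ} {e : (ℕ × ℕ) × Bool} (he : e ∈ redE I) :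
    (∃ i < cc I, e = ((0, 4 * i + 4), true) ∨ e = ((4 * i + 4, 1), true)) ∨
    (∃ p ∈ I.1.2.zipIdx, e = ((0, 4 * p.2 + 2), true) ∨
      e = ((4 * p.2 + 2, 4 * p.1.1 + 3), true) ∨ e = ((4 * p.2 + 2, 4 * p.1.2 + 3), true)) ∨
    (∃ v ∈ I.1.1, e = ((4 * v + 3, 1), false)) := by
  unfold redE at he
  simp only [List.mem_append, List.mem_flatMap, List.mem_map, List.mem_range, List.mem_cons,
    List.not_mem_nil, or_false] at he
  rcases he with ⟨i, hi, he⟩ | ⟨p, hp, he⟩ | ⟨v, hv, he⟩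
  · exact Or.inl ⟨i, hi, he⟩
  · exact Or.inr (Or.inl ⟨p, hp, he⟩)
  · exact Or.inr (Or.inr ⟨v, hv, he.symm⟩)

theorem rank_lt {I : (List ℕ × List (ℕ × ℕ)) × ℕ} {e : (ℕ × ℕ) × Bool} (he : e ∈ redE I) :
    rank e.1.1 < rank e.1.2 := by
  rcases mem_redE he with ⟨i, _, rfl | rfl⟩ | ⟨p, _, rfl | rfl | rfl⟩ | ⟨v, _, rfl⟩ <;>
    (simp only [rank]; split_ifs <;> first | omega | (exfalso; simp_all; done))

theorem zipIdx_lt {α : Type} {l : List α} {p : α × ℕ} (h : p ∈ l.zipIdx) :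
    ∃ h : p.2 < l.length, l[p.2] = p.1 := by
  obtain ⟨a, i⟩ := p
  rw [List.mem_zipIdx_iff_getElem?] at h
  simpa [List.getElem?_eq_some_iff] using h

theorem zipIdx_mem {α : Type} {l : List α} {p : α × ℕ} (h : p ∈ l.zipIdx) : p.1 ∈ l := by
  obtain ⟨h1, h2⟩ := zipIdx_lt h
  exact h2 ▸ List.getElem_mem h1

theorem isMultigraph_red {I : (List ℕ × List (ℕ × ℕ)) × ℕ} (h : IsGraph I.1.1 I.1.2) :
    IsMultigraph (redV I) (redE I) := by
  refine ⟨nodup_redV h, ?_⟩
  intro e he
  refine ⟨?_, ?_, fun h => by have := rank_lt he; rw [h] at this; omega⟩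
  · rcases mem_redE he with ⟨i, hi, rfl | rfl⟩ | ⟨p, hp, rfl | rfl | rfl⟩ | ⟨v, hv, rfl⟩
    · simp [redV]
    · simp [redV, hi]
    · simp [redV]
    · have := (zipIdx_lt hp).1
      simp [redV, this]
    · have := (zipIdx_lt hp).1
      simp [redV, this]
    · simp [redV, hv]
  · rcases mem_redE he with ⟨i, hi, rfl | rfl⟩ | ⟨p, hp, rfl | rfl | rfl⟩ | ⟨v, hv, rfl⟩
    · simp [redV, hi]
    · simp [redV]
    · have := (zipIdx_lt hp).1
      simp [redV, this]
    · have := (h.2.1 _ (zipIdx_mem hp)).1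
      simp [redV, this]
    · have := (h.2.1 _ (zipIdx_mem hp)).2.1
      simp [redV, this]
    · simp [redV]

theorem zipIdx_snd_nodup {α : Type} (l : List α) : (l.zipIdx.map Prod.snd).Nodup := by
  rw [List.zipIdx_map_snd]
  exact List.nodup_range' ..

theorem nodup_fst_redE {I : (List ℕ × List (ℕ × ℕ)) × ℕ} (h : IsGraph I.1.1 I.1.2) :
    ((redE I).map Prod.fst).Nodup := by
  unfold redE
  simp only [List.map_append, List.map_flatMap, List.map_cons, List.map_nil, List.map_map]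
  rw [List.nodup_append', List.nodup_append']
  refine ⟨?_, ⟨?_, ?_, ?_⟩, ?_⟩
  · rw [List.nodup_flatMap]
    refine ⟨fun i _ => by simp, ?_⟩
    refine List.Nodup.pairwise_of_forall_ne List.nodup_range ?_
    intro i _ j _ hij x hx hx'
    simp only [List.mem_cons, List.not_mem_nil, or_false] at hx hx'
    rcases hx with rfl | rfl <;> rcases hx' with hx' | hx' <;> simp at hx' <;> omega
  · rw [List.nodup_flatMap]
    refine ⟨fun p hp => ?_, ?_⟩
    · have := (h.2.1 _ (zipIdx_mem hp)).2.2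
      simp [this]
    · have h1 := zipIdx_snd_nodup I.1.2
      rw [List.nodup_iff_pairwise_ne, List.pairwise_map] at h1
      refine h1.imp ?_
      intro p q hpq x hx hx'
      simp only [List.mem_cons, List.not_mem_nil, or_false] at hx hx'
      rcases hx with rfl | rfl | rfl <;> rcases hx' with hx' | hx' | hx' <;>
        simp only [Prod.mk.injEq] at hx' <;> omega
  · exact h.1.map (fun a b h => by simpa using h)
  · intro x hx hx'
    simp only [List.mem_flatMap, List.mem_map, List.mem_cons, List.not_mem_nil, or_false,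
      Function.comp_apply] at hx hx'
    obtain ⟨v, _, rfl⟩ := hx'
    obtain ⟨p, _, hx⟩ := hx
    rcases hx with hx | hx | hx <;> simp only [Prod.mk.injEq] at hx <;> omega
  · intro x hx hx'
    simp only [List.mem_append, List.mem_flatMap, List.mem_map, List.mem_cons, List.not_mem_nil,
      or_false, Function.comp_apply] at hx hx'
    obtain ⟨i, _, rfl | rfl⟩ := hx <;> rcases hx' with ⟨p, _, hx' | hx' | hx'⟩ | ⟨v, _, hx'⟩ <;>
      simp only [Prod.mk.injEq] at hx' <;> omega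

theorem noParallel_of {E : List ((ℕ × ℕ) × Bool)} (h1 : (E.map Prod.fst).Nodup)
    (f : ℕ → ℕ) (h2 : ∀ e ∈ E, f e.1.1 < f e.1.2) : NoParallel E := by
  unfold NoParallel
  have h3 : E.map (fun e => s(e.1.1, e.1.2)) = (E.map Prod.fst).map (fun p => s(p.1, p.2)) := by
    simp
  rw [h3]
  refine List.Nodup.map_on ?_ h1
  intro p hp q hq hpq
  simp only [List.mem_map] at hp hq
  obtain ⟨e, he, rfl⟩ := hp
  obtain ⟨e', he', rfl⟩ := hq
  simp only [Sym2.eq_iff] at hpq
  rcases hpq with ⟨h4, h5⟩ | ⟨h4, h5⟩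
  · exact Prod.ext h4 h5
  · have := h2 e he
    have := h2 e' he'
    rw [h4, h5] at *
    omega

theorem noParallel_red {I : (List ℕ × List (ℕ × ℕ)) × ℕ} (h : IsGraph I.1.1 I.1.2) :
    NoParallel (redE I) := noParallel_of (nodup_fst_redE h) rank fun _ he => rank_lt he

/-! ### Counting -/

theorem cut_red (I : (List ℕ × List (ℕ × ℕ)) × ℕ) (X : Finset ℕ) (h0 : 0 ∈ X) (h1 : 1 ∉ X) :
    cutSize (redE I) X true = cc I + (I.1.2.zipIdx.map (fun p =>
      (if 4 * p.2 + 2 ∈ X then (if 4 * p.1.1 + 3 ∈ X then 0 else 1) +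
        (if 4 * p.1.2 + 3 ∈ X then 0 else 1)
      else 1 + ((if 4 * p.1.1 + 3 ∈ X then 1 else 0) + (if 4 * p.1.2 + 3 ∈ X then 1 else 0))))).sum := by
  unfold cutSize redE
  rw [List.countP_append, List.countP_append, List.countP_flatMap, List.countP_flatMap]
  have e1 : (List.map (List.countP (fun e : (ℕ × ℕ) × Bool => decide (e.2 = true ∧ ¬ (e.1.1 ∈ X ↔ e.1.2 ∈ X))) ∘
      fun i => [((0, 4 * i + 4), true), ((4 * i + 4, 1), true)]) (List.range (cc I))).sum = cc I := by
    have : ∀ i, (List.countP (fun e : (ℕ × ℕ) × Bool => decide (e.2 = true ∧ ¬ (e.1.1 ∈ X ↔ e.1.2 ∈ X))) ∘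
      fun i => [((0, 4 * i + 4), true), ((4 * i + 4, 1), true)]) i = 1 := by
      intro i
      by_cases h : 4 * i + 4 ∈ X <;> simp [List.countP_cons, h, h0, h1]
    rw [List.map_congr_left (fun i _ => this i)]
    simp
  have e2 : List.countP (fun e : (ℕ × ℕ) × Bool => decide (e.2 = true ∧ ¬ (e.1.1 ∈ X ↔ e.1.2 ∈ X)))
      (List.map (fun v => ((4 * v + 3, 1), false)) I.1.1) = 0 := by
    rw [List.countP_eq_zero]
    intro e he
    simp only [List.mem_map] at he
    obtain ⟨v, _, rfl⟩ := he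
    simp
  rw [e1, e2, Nat.add_zero]
  congr 2
  apply List.map_congr_left
  intro p _
  by_cases a : 4 * p.2 + 2 ∈ X <;> by_cases b : 4 * p.1.1 + 3 ∈ X <;>
    by_cases c : 4 * p.1.2 + 3 ∈ X <;> simp [List.countP_cons, a, b, c, h0]

theorem cut_blue (I : (List ℕ × List (ℕ × ℕ)) × ℕ) (X : Finset ℕ) (h1 : 1 ∉ X) :
    cutSize (redE I) X false = I.1.1.countP (fun v => decide (4 * v + 3 ∈ X)) := by
  unfold cutSize redE
  rw [List.countP_append, List.countP_append]
  have e1 : ∀ e ∈ (List.range (cc I)).flatMap (fun i => [((0, 4 * i + 4), true),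
      ((4 * i + 4, 1), true)]), e.2 = true := by
    intro e he
    simp only [List.mem_flatMap, List.mem_cons, List.not_mem_nil, or_false] at he
    obtain ⟨i, _, rfl | rfl⟩ := he <;> rfl
  have e2 : ∀ e ∈ (I.1.2.zipIdx.flatMap (fun p => [((0, 4 * p.2 + 2), true),
    ((4 * p.2 + 2, 4 * p.1.1 + 3), true), ((4 * p.2 + 2, 4 * p.1.2 + 3), true)])), e.2 = true := by
    intro e he
    simp only [List.mem_flatMap, List.mem_cons, List.not_mem_nil, or_false] at he
    obtain ⟨i, _, rfl | rfl | rfl⟩ := he <;> rfl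
  rw [List.countP_eq_zero.2 (fun e he => by simp [e1 e he]),
    List.countP_eq_zero.2 (fun e he => by simp [e2 e he]), List.countP_map]
  simp only [Nat.zero_add]
  apply List.countP_congr
  intro v _
  simp [h1]

theorem sum_ge {E : List (ℕ × ℕ)} {U : Finset ℕ} {g : (ℕ × ℕ) × ℕ → ℕ} {n : ℕ}
    (hg : ∀ p ∈ E.zipIdx n, (if p.1.1 ∈ U ∧ p.1.2 ∈ U then 0 else 1) ≤ g p) :
    E.length ≤ inside E U + ((E.zipIdx n).map g).sum := by
  induction E generalizing n with
  | nil => simp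
  | cons e E ih =>
    simp only [List.zipIdx_cons, List.forall_mem_cons] at hg
    have ih' := ih hg.2
    have h1 : inside (e :: E) U = inside E U + if e.1 ∈ U ∧ e.2 ∈ U then 1 else 0 := by
      unfold inside
      rw [List.countP_cons]
      simp
    simp only [List.zipIdx_cons, List.map_cons, List.sum_cons, List.length_cons, h1]
    have h2 := hg.1
    split_ifs at h2 ⊢ <;> omega

theorem sum_le {E : List (ℕ × ℕ)} {U : Finset ℕ} {g : (ℕ × ℕ) × ℕ → ℕ} {n : ℕ}
    (hg : ∀ p ∈ E.zipIdx n, g p ≤ if p.1.1 ∈ U ∧ p.1.2 ∈ U then 0 else 1) :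
    inside E U + ((E.zipIdx n).map g).sum ≤ E.length := by
  induction E generalizing n with
  | nil => simp [inside]
  | cons e E ih =>
    simp only [List.zipIdx_cons, List.forall_mem_cons] at hg
    have ih' := ih hg.2
    have h1 : inside (e :: E) U = inside E U + if e.1 ∈ U ∧ e.2 ∈ U then 1 else 0 := by
      unfold inside
      rw [List.countP_cons]
      simp
    simp only [List.zipIdx_cons, List.map_cons, List.sum_cons, List.length_cons, h1]
    have h2 := hg.1
    split_ifs at h2 ⊢ <;> omega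

theorem card_le_of_clique {V : List ℕ} {E : List (ℕ × ℕ)} {k : ℕ} (h : HasClique V E k) :
    k ≤ V.length := by
  obtain ⟨K, h1, rfl, _⟩ := h
  refine (Finset.card_le_card (t := V.toFinset) fun v hv => ?_).trans (List.toFinset_card_le V)
  simpa using h1 v hv

theorem hasClique_kk (I : (List ℕ × List (ℕ × ℕ)) × ℕ) :
    HasClique I.1.1 I.1.2 I.2 ↔ HasClique I.1.1 I.1.2 (kk I) := by
  unfold kk
  by_cases h : I.2 ≤ I.1.1.length + 2
  · rw [min_eq_left h]
  · rw [min_eq_right (by omega)]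
    constructor
    · intro h'
      have := card_le_of_clique h'
      omega
    · intro h'
      have := card_le_of_clique h'
      omega

theorem two_le_kk {I : (List ℕ × List (ℕ × ℕ)) × ℕ} (h : 2 ≤ I.2) : 2 ≤ kk I := by
  unfold kk
  omega

theorem card_eq_countP {V : List ℕ} (hV : V.Nodup) (X : Finset ℕ) (f : ℕ → ℕ) :
    (V.toFinset.filter (fun v => f v ∈ X)).card = V.countP (fun v => decide (f v ∈ X)) := by
  rw [List.countP_eq_length_filter, ← List.toFinset_card_of_nodup (hV.filter _)]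
  congr 1
  ext v
  simp

open Classical in
theorem red_correct {I : (List ℕ × List (ℕ × ℕ)) × ℕ} (h : IsGraph I.1.1 I.1.2) (h2 : 2 ≤ I.2) :
    HasClique I.1.1 I.1.2 I.2 ↔ RedBlueCutMulti (red I) := by
  rw [hasClique_kk, hasClique_iff h (two_le_kk h2), ← cc_eq]
  constructor
  · rintro ⟨U, hUV, hUk, hU⟩
    refine ⟨isMultigraph_red h, by simp [red, redV], by simp [red, redV], by simp [red], ?_⟩
    let X : Finset ℕ := (redV I).toFinset.filter (fun x => x = 0 ∨ (x % 4 = 3 ∧ x / 4 ∈ U) ∨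
      (x % 4 = 2 ∧ ∃ e ∈ I.1.2[x / 4]?, e.1 ∈ U ∨ e.2 ∈ U))
    have hX : ∀ x, x ∈ X ↔ x ∈ redV I ∧ (x = 0 ∨ (x % 4 = 3 ∧ x / 4 ∈ U) ∨
      (x % 4 = 2 ∧ ∃ e ∈ I.1.2[x / 4]?, e.1 ∈ U ∨ e.2 ∈ U)) := by
      intro x; simp [X]
    have hX3 : ∀ v ∈ I.1.1, (4 * v + 3 ∈ X ↔ v ∈ U) := by
      intro v hv
      rw [hX]
      have e1 : (4 * v + 3) % 4 = 3 := by omega
      have e2 : (4 * v + 3) / 4 = v := by omega
      simp [e1, e2, redV, hv]
    have hX2 : ∀ p ∈ I.1.2.zipIdx, (4 * p.2 + 2 ∈ X ↔ p.1.1 ∈ U ∨ p.1.2 ∈ U) := by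
      intro p hp
      obtain ⟨q1, q2⟩ := zipIdx_lt hp
      rw [hX]
      have e1 : (4 * p.2 + 2) % 4 = 2 := by omega
      have e2 : (4 * p.2 + 2) / 4 = p.2 := by omega
      simp [e1, e2, redV, q1, q2]
    have h0 : 0 ∈ X := by rw [hX]; simp [redV]
    have h1 : 1 ∉ X := by rw [hX]; simp
    refine ⟨X, fun v hv => ((hX v).1 hv).1, h0, h1, ?_, ?_⟩
    · change cutSize (redE I) X true ≤ I.1.2.length
      rw [cut_red I X h0 h1]
      have := sum_le (E := I.1.2) (U := U) (n := 0) (g := fun p =>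
        (if 4 * p.2 + 2 ∈ X then (if 4 * p.1.1 + 3 ∈ X then 0 else 1) +
          (if 4 * p.1.2 + 3 ∈ X then 0 else 1)
        else 1 + ((if 4 * p.1.1 + 3 ∈ X then 1 else 0) +
          (if 4 * p.1.2 + 3 ∈ X then 1 else 0)))) ?_
      · omega
      · intro p hp
        have g1 := hX2 p hp
        have hm := h.2.1 _ (zipIdx_mem hp)
        have g2 := hX3 _ hm.1
        have g3 := hX3 _ hm.2.1
        simp only [g1, g2, g3]
        by_cases a : p.1.1 ∈ U <;> by_cases b : p.1.2 ∈ U <;> simp [a, b]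
    · change cutSize (redE I) X false ≤ kk I
      rw [cut_blue I X h1, ← card_eq_countP h.1 X (fun v => 4 * v + 3)]
      refine (Finset.card_le_card fun v hv => ?_).trans hUk
      simp only [Finset.mem_filter, List.mem_toFinset] at hv
      exact (hX3 v hv.1).1 hv.2
  · rintro ⟨_, _, _, _, X, _, h0, h1, hr, hb⟩
    simp only [red] at h0 h1 hr hb
    refine ⟨I.1.1.toFinset.filter (fun v => 4 * v + 3 ∈ X), ?_, ?_, ?_⟩
    · intro v hv
      simp only [Finset.mem_filter, List.mem_toFinset] at hv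
      exact hv.1
    · rw [card_eq_countP h.1 X (fun v => 4 * v + 3), ← cut_blue I X h1]
      exact hb
    · rw [cut_red I X h0 h1] at hr
      have := sum_ge (E := I.1.2) (U := I.1.1.toFinset.filter (fun v => 4 * v + 3 ∈ X)) (n := 0)
        (g := fun p =>
        (if 4 * p.2 + 2 ∈ X then (if 4 * p.1.1 + 3 ∈ X then 0 else 1) +
          (if 4 * p.1.2 + 3 ∈ X then 0 else 1)
        else 1 + ((if 4 * p.1.1 + 3 ∈ X then 1 else 0) +
          (if 4 * p.1.2 + 3 ∈ X then 1 else 0)))) ?_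
      · omega
      · intro p hp
        have hm := h.2.1 _ (zipIdx_mem hp)
        simp only [Finset.mem_filter, List.mem_toFinset, hm.1, hm.2.1, true_and]
        split_ifs <;> simp_all

theorem hardPr_RB : HardPr (fun I : Inst => NoParallel I.1.2) RedBlueCutMulti := by
  refine hardPr_CLIQUE.trans poly_red (fun I h => noParallel_red h.1) fun I h => ?_
  rw [← red_correct h.1 h.2]
  exact ⟨fun h => h.2, fun h' => ⟨h.1, h'⟩⟩

theorem hardI_RB : HardI RedBlueCut := by
  have h : HardPr (fun I : Inst => NoParallel I.1.2) RedBlueCut := by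
    refine hardPr_RB.trans (f := fun I => I) NPC.Poly.id (fun I h => h) fun I h => ?_
    exact ⟨fun h' => ⟨h, h'⟩, fun h' => h'.2⟩
  exact h.toHardI

/-! ### Membership in NP -/

theorem pp_nodup {α β : Type} [TEnc α] [TEnc β] {l : α → List β} (hl : NPC.Poly l) :
    PP (fun a => (l a).Nodup) := Pool.Agent.Y592.OP.pp_nodup hl

theorem noParallel_iff (E : List ((ℕ × ℕ) × Bool)) :
    NoParallel E ↔ E.Pairwise (fun e f => ¬ ((e.1.1 = f.1.1 ∧ e.1.2 = f.1.2) ∨
      (e.1.1 = f.1.2 ∧ e.1.2 = f.1.1))) := by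
  unfold NoParallel
  rw [List.nodup_iff_pairwise_ne, List.pairwise_map]
  simp only [ne_eq, Sym2.eq_iff]

theorem pp_noParallel : PP (fun I : Inst => NoParallel I.1.2) := by
  refine PP.congr ?_ fun I => (noParallel_iff I.1.2).symm
  refine Pool.Agent.Y592.OP.pp_pairwise (l := fun I : Inst => I.1.2) (by fun_prop) ?_
  exact PP.not (PP.or (PP.and (PP.eq (by fun_prop) (by fun_prop))
    (PP.eq (by fun_prop) (by fun_prop))) (PP.and (PP.eq (by fun_prop) (by fun_prop))
    (PP.eq (by fun_prop) (by fun_prop))))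

theorem pp_isMultigraph : PP (fun I : Inst => IsMultigraph I.1.1 I.1.2) := by
  unfold IsMultigraph
  refine PP.and (pp_nodup (by fun_prop)) ?_
  refine PP.ball (l := fun I : Inst => I.1.2)
    (r := fun I e => e.1.1 ∈ I.1.1 ∧ e.1.2 ∈ I.1.1 ∧ e.1.1 ≠ e.1.2) (by fun_prop) ?_
  exact PP.and (PP.mem (by fun_prop) (by fun_prop)) (PP.and (PP.mem (by fun_prop) (by fun_prop))
    (PP.ne (by fun_prop) (by fun_prop)))

/-- The test of a certificate, a list of vertices. -/
def Ver (I : Inst) (w : List ℕ) : Prop :=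
  IsMultigraph I.1.1 I.1.2 ∧ I.2.1.1 ∈ I.1.1 ∧ I.2.1.2 ∈ I.1.1 ∧ I.2.1.1 ≠ I.2.1.2 ∧
    (∀ v ∈ w, v ∈ I.1.1) ∧ I.2.1.1 ∈ w ∧ I.2.1.2 ∉ w ∧
      I.1.2.countP (fun e => decide (e.2 = true ∧ ¬ (e.1.1 ∈ w ↔ e.1.2 ∈ w))) ≤ I.2.2.1 ∧
      I.1.2.countP (fun e => decide (e.2 = false ∧ ¬ (e.1.1 ∈ w ↔ e.1.2 ∈ w))) ≤ I.2.2.2

theorem pp_iff {α : Type} [TEnc α] {p q : α → Prop} (hp : PP p) (hq : PP q) :
    PP (fun a => p a ↔ q a) :=
  PP.congr (PP.or (PP.and hp hq) (PP.and hp.not hq.not)) fun a => by tauto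

theorem pp_ver : PP (fun x : Inst × List ℕ => Ver x.1 x.2) := by
  unfold Ver
  have hc : ∀ c : Bool, NPC.Poly (fun x : Inst × List ℕ =>
      x.1.1.2.countP (fun e => decide (e.2 = c ∧ ¬ (e.1.1 ∈ x.2 ↔ e.1.2 ∈ x.2)))) := by
    intro c
    refine countP_poly (l := fun x : Inst × List ℕ => x.1.1.2)
      (p := fun x e => decide (e.2 = c ∧ ¬ (e.1.1 ∈ x.2 ↔ e.1.2 ∈ x.2))) (by fun_prop) ?_
    exact PP.dec (PP.and (PP.eq (by fun_prop) (by fun_prop)) (PP.not
      (pp_iff (PP.mem (by fun_prop) (by fun_prop)) (PP.mem (by fun_prop) (by fun_prop)))))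
  refine PP.and (pp_isMultigraph.comp (by fun_prop)) (PP.and (PP.mem (by fun_prop) (by fun_prop))
    (PP.and (PP.mem (by fun_prop) (by fun_prop)) (PP.and (PP.ne (by fun_prop) (by fun_prop))
    (PP.and ?_ (PP.and (PP.mem (by fun_prop) (by fun_prop))
    (PP.and (PP.not (PP.mem (by fun_prop) (by fun_prop)))
    (PP.and (PP.le (hc true) (by fun_prop)) (PP.le (hc false) (by fun_prop)))))))))
  exact PP.ball (l := fun x : Inst × List ℕ => x.2) (r := fun x v => v ∈ x.1.1.1) (by fun_prop)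
    (PP.mem (by fun_prop) (by fun_prop))

theorem ver_of {I : Inst} (h : RedBlueCutMulti I) :
    ∃ w : List ℕ, sz w ≤ (Polynomial.X : Polynomial ℕ).eval (sz I) ∧ Ver I w := by
  obtain ⟨h1, h2, h3, h4, X, h5, h6, h7, h8, h9⟩ := h
  have hm : ∀ v, v ∈ I.1.1.filter (fun v => decide (v ∈ X)) ↔ v ∈ X := by
    intro v
    simp only [List.mem_filter, decide_eq_true_eq, and_iff_right_iff_imp]
    exact h5 v
  refine ⟨I.1.1.filter (fun v => decide (v ∈ X)), ?_, h1, h2, h3, h4, ?_, ?_, ?_, ?_, ?_⟩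
  · have := sz_sublist (List.filter_sublist (p := fun v => decide (v ∈ X)) (l := I.1.1))
    simp only [Polynomial.eval_X]
    obtain ⟨⟨V, E⟩, y⟩ := I
    simp only [sz_pair] at this ⊢
    omega
  · intro v hv
    exact (List.mem_filter.1 hv).1
  · rw [hm]; exact h6
  · rw [hm]; exact h7
  · simp only [hm]; exact h8
  · simp only [hm]; exact h9

theorem of_ver {I : Inst} {w : List ℕ} (h : Ver I w) : RedBlueCutMulti I := by
  obtain ⟨h1, h2, h3, h4, h5, h6, h7, h8, h9⟩ := h
  refine ⟨h1, h2, h3, h4, w.toFinset, ?_, by simpa using h6, by simpa using h7, ?_, ?_⟩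
  · intro v hv
    exact h5 v (by simpa using hv)
  · unfold cutSize; simpa using h8
  · unfold cutSize; simpa using h9

theorem inNPP_multi : InNPP RedBlueCutMulti :=
  inNPP_of_pp pp_ver Polynomial.X (fun _ h => ver_of h) fun _ _ h => of_ver h

theorem inNPP_simple : InNPP RedBlueCut := by
  refine inNPP_of_pp (R := fun I w => NoParallel I.1.2 ∧ Ver I w)
    (PP.and (pp_noParallel.comp (by fun_prop)) pp_ver) Polynomial.X (fun I h => ?_)
    fun _ _ h => ⟨h.1, of_ver h.2⟩
  obtain ⟨w, hw, hw'⟩ := ver_of h.2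
  exact ⟨w, hw, h.1, hw'⟩

end Pool.Agent.R544.RB
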